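import Pool.Agent.H54.SQ.Spec

/-!
# Squares: modules CUT and INI1
-/

namespace Pool.Agent.H54.SQ

open Finset Matrix Polynomial Pool.Agent.H45.SQ
open scoped BigOperators ComplexConjugate ComplexOrder

section

variable {G : Type} [Fintype G] [DecidableEq G]

/-- indicator of `x ≥ b` -/
noncomputable def ind (b x : ℝ) : ℝ := if b ≤ x then 1 else 0

theorem ind_01 (b x : ℝ) : ind b x = 0 ∨ ind b x = 1 := by
  unfold ind; split_ifs <;> simp

theorem sum_ind (b : ℝ) (d : G → ℝ) :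
    ∑ i, ind b (d i) = ((Finset.univ.filter (fun i => b ≤ d i)).card : ℝ) := by
  unfold ind
  rw [Finset.sum_ite]
  simp

variable {U : Matrix G G ℂ} (hU : SD U)

include hU

theorem tr_ind (b : ℝ) (d : G → ℝ) : (fc U (fun i => ind b (d i))).trace =
    (((Finset.univ.filter (fun i => b ≤ d i)).card : ℕ) : ℂ) := by
  rw [fc_trace hU, sum_ind]
  simp

/-- `K = P K` and `b > 0`: the spectral projection is below `P` -/
theorem P_ind {P : Matrix G G ℂ} {d : G → ℝ} (h : P * fc U d = fc U d) {b : ℝ} (hb : 0 < b) :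
    P * fc U (fun i => ind b (d i)) = fc U (fun i => ind b (d i)) := by
  have e : fc U (fun i => ind b (d i)) = fc U d * fc U (fun i => ind b (d i) / d i) := by
    rw [fc_mul hU]
    congr 1
    funext i
    unfold ind
    split_ifs with h1
    · have : d i ≠ 0 := by linarith [h1]
      field_simp
    · simp
  rw [e, ← Matrix.mul_assoc, h]

theorem ind_P {P : Matrix G G ℂ} {d : G → ℝ} (h : fc U d * P = fc U d) {b : ℝ} (hb : 0 < b) :
    fc U (fun i => ind b (d i)) * P = fc U (fun i => ind b (d i)) := by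
  have e : fc U (fun i => ind b (d i)) = fc U (fun i => ind b (d i) / d i) * fc U d := by
    rw [fc_mul hU]
    congr 1
    funext i
    unfold ind
    split_ifs with h1
    · have : d i ≠ 0 := by linarith [h1]
      field_simp
    · simp
  rw [e, Matrix.mul_assoc, h]

end

/-- a free grid interval: among the cells `[(j+1) h, (j+2) h)`, for `j` in a set `S` with more
elements than the indices `i` with `d i ≥ h`, one contains no `d i` -/
theorem free_cell {ι : Type*} [Fintype ι] (d : ι → ℝ) (a₀ h : ℝ) (hh : 0 < h) (D : ℕ)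
    (hD : (Finset.univ.filter (fun i => a₀ ≤ d i)).card ≤ D) (S : Finset ℕ) (hS : D < S.card) :
    ∃ j ∈ S, ∀ i, d i < a₀ + j * h ∨ a₀ + (j + 1) * h ≤ d i := by
  classical
  have h1 : ((Finset.univ.filter (fun i => a₀ ≤ d i)).image
      (fun i => ⌊(d i - a₀) / h⌋₊)).card < S.card :=
    lt_of_le_of_lt Finset.card_image_le (lt_of_le_of_lt hD hS)
  obtain ⟨j, hj, hjn⟩ := Finset.exists_mem_notMem_of_card_lt_card h1
  refine ⟨j, hj, fun i => ?_⟩
  by_contra hc
  push Not at hc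
  obtain ⟨hc1, hc2⟩ := hc
  apply hjn
  have h2 : a₀ ≤ d i := by
    have : 0 ≤ (j : ℝ) * h := by positivity
    linarith
  refine Finset.mem_image.2 ⟨i, Finset.mem_filter.2 ⟨Finset.mem_univ _, h2⟩, ?_⟩
  rw [Nat.floor_eq_iff (div_nonneg (by linarith) hh.le)]
  constructor
  · rw [le_div_iff₀ hh]; linarith
  · rw [div_lt_iff₀ hh]; linarith

/-- CUT -/
theorem cut_t (hC : T_CUTP) : T_CUT := by
  intro D B ξ ε hB hξ hε
  set h : ℝ := ξ / (4 * (D + 1)) with hh
  have hh0 : 0 < h := by positivity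
  set J : ℕ := ⌈B / h⌉₊ + 1 with hJ
  set R : ℝ := (J + 2) * h with hR
  have hJB : B ≤ J * h := by
    have h1 : B / h ≤ ⌈B / h⌉₊ := Nat.le_ceil _
    rw [div_le_iff₀ hh0] at h1
    have h2 : ((J : ℕ) : ℝ) = (⌈B / h⌉₊ : ℝ) + 1 := by rw [hJ]; push_cast; ring
    rw [h2]
    linarith
  set ε' : ℝ := ε / (1 + B ^ 2) with hε'
  have hε'0 : 0 < ε' := by positivity
  have hq : ∀ j : Fin J, ∃ q : ℝ[X], CutPoly R (((j : ℕ) + 1) * h) (((j : ℕ) + 2) * h) ε' q := by
    intro j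
    refine hC R _ _ ε' (by positivity) (by nlinarith) ?_ hε'0
    rw [hR]
    have : ((j : ℕ) : ℝ) ≤ J := by exact_mod_cast j.2.le
    exact mul_le_mul_of_nonneg_right (by linarith) hh0.le
  choose q hq using hq
  refine ⟨J, q, fun j => ⟨(hq j).1, (hq j).2.1⟩, ?_⟩
  intro G _ _ _ _ P K hP htr hK hPK hKP hpos hop ⟨v, v', hv, hv', hvn, hvn', hsp⟩
  obtain ⟨U, d, hU, hKd⟩ := exists_spec hK
  subst hKd
  have hd0 : ∀ i, 0 ≤ d i := fc_nonneg_of hU hpos
  have hdB : ∀ i, d i ≤ B := fun i => (le_abs_self _).trans (fc_le_of_opLe hU hop i)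
  -- number of eigenvalues at least `h`
  have hcard : ∀ b : ℝ, 0 < b → (Finset.univ.filter (fun i => b ≤ d i)).card ≤ D := by
    intro b hb
    have h1 := (proj_le hP (fc_proj hU (fun i => ind_01 b (d i))) (P_ind hU hPK hb)).1
    rw [tr_ind hU, htr, Complex.natCast_re, Complex.natCast_re] at h1
    exact_mod_cast h1
  set m₀ := qf (fc U d) v' with hm₀
  set M₁ := qf (fc U d) v with hM₁
  have hm₀0 : 0 ≤ m₀ := hpos v'
  have hM₁B : M₁ ≤ B := by
    rw [hM₁, fc_qf]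
    calc ∑ i, d i * ‖(Uᴴ *ᵥ v) i‖ ^ 2 ≤ ∑ i, B * ‖(Uᴴ *ᵥ v) i‖ ^ 2 :=
          Finset.sum_le_sum (fun i _ => mul_le_mul_of_nonneg_right (hdB i) (by positivity))
      _ = B := by rw [← Finset.mul_sum, planch hU, hvn, mul_one]
  -- admissible cells
  set j₀ : ℕ := ⌊m₀ / h⌋₊ with hj₀
  have hj₀1 : (j₀ : ℝ) * h ≤ m₀ := by
    have h1 : (⌊m₀ / h⌋₊ : ℝ) ≤ m₀ / h := Nat.floor_le (div_nonneg hm₀0 hh0.le)
    rw [le_div_iff₀ hh0] at h1
    exact h1
  have hj₀2 : m₀ < (j₀ + 1) * h := by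
    have h1 : m₀ / h < (⌊m₀ / h⌋₊ : ℝ) + 1 := Nat.lt_floor_add_one _
    rw [div_lt_iff₀ hh0] at h1
    exact h1
  set S : Finset ℕ := (Finset.range (D + 1)).image (fun t => j₀ + t) with hS
  have hScard : D < S.card := by
    rw [hS, Finset.card_image_of_injective _ (add_right_injective j₀), Finset.card_range]
    omega
  obtain ⟨j, hjS, hfree⟩ := free_cell d h h hh0 D (hcard h hh0) S hScard
  obtain ⟨t, ht, hjt⟩ := Finset.mem_image.1 hjS
  rw [Finset.mem_range] at ht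
  have hjr : (j : ℝ) = j₀ + t := by rw [← hjt]; push_cast; ring
  have htD : (t : ℝ) ≤ D := by exact_mod_cast (by omega : t ≤ D)
  have hξh : ξ = 4 * (D + 1) * h := by rw [hh]; field_simp
  have hbM : (((j : ℕ) : ℝ) + 2) * h ≤ M₁ := by
    have h1 : ((j : ℝ) + 2) * h ≤ m₀ + (D + 2) * h := by
      rw [hjr]
      nlinarith
    have h2 : (D : ℝ) * h ≥ 0 := by positivity
    nlinarith
  have hbm : m₀ < (((j : ℕ) : ℝ) + 2) * h := by
    rw [hjr]
    have : (0 : ℝ) ≤ t := by positivity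
    nlinarith
  have hjJ : j < J := by
    have h1 : (((j : ℕ) : ℝ) + 2) * h ≤ J * h := by linarith
    have h2 : ((j : ℕ) : ℝ) + 2 ≤ J := le_of_mul_le_mul_right h1 hh0
    have h3 : j + 2 ≤ J := by exact_mod_cast h2
    omega
  set b : ℝ := (((j : ℕ) : ℝ) + 2) * h with hb
  have hb0 : 0 < b := by positivity
  set P₁ := fc U (fun i => ind b (d i)) with hP₁
  have hP₁proj : Proj P₁ := fc_proj hU (fun i => ind_01 b (d i))
  have hPP₁ : P * P₁ = P₁ := P_ind hU hPK hb0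
  have hP₁P : P₁ * P = P₁ := ind_P hU hKP hb0
  refine ⟨⟨j, hjJ⟩, (Finset.univ.filter (fun i => b ≤ d i)).card, P₁, ?_, ?_, hP₁proj,
    tr_ind hU b d, hPP₁, hP₁P, ?_⟩
  · rw [Nat.one_le_iff_ne_zero, ne_eq, Finset.card_eq_zero, Finset.filter_eq_empty_iff]
    intro hall
    have h1 : M₁ < b := by
      have h2 : ∑ i, ‖(Uᴴ *ᵥ v) i‖ ^ 2 = 1 := by rw [planch hU, hvn]
      have h3 : ∃ i, 0 < ‖(Uᴴ *ᵥ v) i‖ ^ 2 := by
        by_contra hc
        push Not at hc
        have : ∑ i, ‖(Uᴴ *ᵥ v) i‖ ^ 2 ≤ 0 := Finset.sum_nonpos (fun i _ => hc i)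
        linarith
      obtain ⟨i₀, hi₀⟩ := h3
      rw [hM₁, fc_qf]
      calc ∑ i, d i * ‖(Uᴴ *ᵥ v) i‖ ^ 2 < ∑ i, b * ‖(Uᴴ *ᵥ v) i‖ ^ 2 := by
            refine Finset.sum_lt_sum (fun i _ => mul_le_mul_of_nonneg_right
              (not_le.1 (hall (Finset.mem_univ i))).le (by positivity)) ⟨i₀, Finset.mem_univ _, ?_⟩
            exact mul_lt_mul_of_pos_right (not_le.1 (hall (Finset.mem_univ i₀))) hi₀
        _ = b := by rw [← Finset.mul_sum, h2, mul_one]
    linarith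
  · have h1 := proj_le hP hP₁proj hPP₁
    rw [tr_ind hU, htr, Complex.natCast_re, Complex.natCast_re] at h1
    have h2 : (Finset.univ.filter (fun i => b ≤ d i)).card ≤ D := by exact_mod_cast h1.1
    rcases Nat.lt_or_ge (Finset.univ.filter (fun i => b ≤ d i)).card D with h3 | h3
    · exact h3
    exfalso
    have h4 : (Finset.univ.filter (fun i => b ≤ d i)).card = D := le_antisymm h2 h3
    have h5 : P = P₁ := h1.2 (by rw [h4])
    have h6 : P₁ *ᵥ v' = v' := by rw [← h5]; exact hv'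
    -- `qf K v' ≥ b`
    have h7 : fc U d * P₁ = fc U (fun i => d i * ind b (d i)) := fc_mul hU _ _
    have h8 : qf (fc U d) v' = ∑ i, d i * ‖(Uᴴ *ᵥ v') i‖ ^ 2 := fc_qf _ _
    have h9 : ∀ i, (Uᴴ *ᵥ v') i = (ind b (d i) : ℂ) * (Uᴴ *ᵥ v') i := by
      intro i
      have e1 : Uᴴ *ᵥ v' = Uᴴ *ᵥ (P₁ *ᵥ v') := by rw [h6]
      conv_lhs => rw [e1, hP₁, fc_mulVec, mulVec_mulVec, hU.l, one_mulVec]
    have h10 : ∑ i, b * ‖(Uᴴ *ᵥ v') i‖ ^ 2 ≤ ∑ i, d i * ‖(Uᴴ *ᵥ v') i‖ ^ 2 := by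
      refine Finset.sum_le_sum (fun i _ => ?_)
      by_cases hi : b ≤ d i
      · exact mul_le_mul_of_nonneg_right hi (by positivity)
      · have h11 : (Uᴴ *ᵥ v') i = 0 := by
          rw [h9 i]; unfold ind; rw [if_neg hi]; simp
        rw [h11]; simp
    rw [← Finset.mul_sum, planch hU, hvn', mul_one, ← h8] at h10
    linarith
  · rw [fc_aeval hU, hP₁, fc_sub]
    refine fc_opLe hU hε.le (fun i => ?_)
    have hcut := hq ⟨j, hjJ⟩
    have hdR : d i ≤ R := by
      have h1 := hdB i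
      have h2 : (J : ℝ) * h ≤ R := by rw [hR]; nlinarith
      linarith
    rcases hfree i with h1 | h1
    · have h2 : ¬ b ≤ d i := by
        rw [not_le, hb]
        nlinarith
      unfold ind
      rw [if_neg h2, sub_zero]
      have h3 := hcut.2.2.1 (d i) (by
        have : 0 ≤ R := by rw [hR]; positivity
        linarith [hd0 i]) (by
        show d i ≤ (((j : ℕ) : ℝ) + 1) * h
        linarith)
      refine h3.trans ?_
      have h4 : d i ^ 2 ≤ B ^ 2 := pow_le_pow_left₀ (hd0 i) (hdB i) 2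
      calc ε' * d i ^ 2 ≤ ε' * (1 + B ^ 2) := mul_le_mul_of_nonneg_left (by linarith) hε'0.le
        _ = ε := by rw [hε']; field_simp
    · have h2 : b ≤ d i := by
        rw [hb]; linarith
      unfold ind
      rw [if_pos h2]
      have h3 := hcut.2.2.2 (d i) (by
        show (((j : ℕ) : ℝ) + 2) * h ≤ d i
        exact h2) hdR
      refine h3.trans ?_
      calc ε' = ε' * 1 := by ring
        _ ≤ ε' * (1 + B ^ 2) := mul_le_mul_of_nonneg_left (by nlinarith [sq_nonneg B]) hε'0.le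
        _ = ε := by rw [hε']; field_simp

end Pool.Agent.H54.SQ
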