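import Pool.Agent.H54.SQ.Spec

/-!
# Squares: modules CUTP and FLAT
-/

namespace Pool.Agent.H54.SQ

open Finset Matrix Polynomial Pool.Agent.H45.SQ
open scoped BigOperators ComplexConjugate ComplexOrder

/-- CUTP -/
theorem cutp : T_CUTP := by
  intro R a b ε ha hab hbR hε
  have hR : 0 < R := by linarith
  have hb : 0 < b := by linarith
  set r : ℝ → ℝ := fun x => max 0 (min 1 ((x - a) / (b - a))) with hr
  set g : ℝ → ℝ := fun x => r x / (max x a) ^ 2 with hg
  have hrc : Continuous r := by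
    rw [hr]
    exact continuous_const.max (continuous_const.min
      ((continuous_id.sub continuous_const).div_const _))
  have hgc : Continuous g := by
    rw [hg]
    refine hrc.div ((continuous_id.max continuous_const).pow 2) (fun x => ?_)
    have : 0 < max x a := lt_max_of_lt_right ha
    positivity
  have hra : ∀ x, x ≤ a → r x = 0 := by
    intro x hx
    have h1 : (x - a) / (b - a) ≤ 0 := div_nonpos_of_nonpos_of_nonneg (by linarith) (by linarith)
    rw [hr]
    exact max_eq_left (le_trans (min_le_right _ _) h1)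
  have hrb : ∀ x, b ≤ x → r x = 1 := by
    intro x hx
    have h1 : 1 ≤ (x - a) / (b - a) := by
      rw [le_div_iff₀ (by linarith)]; linarith
    rw [hr]
    show max 0 (min 1 ((x - a) / (b - a))) = 1
    rw [min_eq_left h1]
    norm_num
  set δ := min ε (ε / R ^ 2) with hδ
  have hδ0 : 0 < δ := lt_min hε (by positivity)
  obtain ⟨p, hp⟩ := exists_polynomial_near_of_continuousOn (-R) R g hgc.continuousOn δ hδ0
  refine ⟨X ^ 2 * p, ?_, ?_, ?_, ?_⟩
  · rw [coeff_X_pow_mul']; simp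
  · rw [coeff_X_pow_mul']; simp
  · intro x hx1 hx2
    have h1 := hp x ⟨hx1, by linarith⟩
    have h2 : g x = 0 := by
      show r x / _ = 0
      rw [hra x hx2, zero_div]
    rw [h2, sub_zero] at h1
    rw [eval_mul, eval_pow, eval_X, abs_mul, abs_of_nonneg (sq_nonneg x), mul_comm]
    exact mul_le_mul_of_nonneg_right (h1.le.trans (min_le_left _ _)) (sq_nonneg x)
  · intro x hx1 hx2
    have hx0 : 0 < x := by linarith
    have h1 := hp x ⟨by linarith, hx2⟩
    have h2 : g x = 1 / x ^ 2 := by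
      show r x / (max x a) ^ 2 = 1 / x ^ 2
      rw [hrb x hx1, max_eq_left (by linarith)]
    rw [h2] at h1
    rw [eval_mul, eval_pow, eval_X]
    have h3 : x ^ 2 * p.eval x - 1 = x ^ 2 * (p.eval x - 1 / x ^ 2) := by
      field_simp
    rw [h3, abs_mul, abs_of_nonneg (sq_nonneg x)]
    calc x ^ 2 * |p.eval x - 1 / x ^ 2| ≤ R ^ 2 * (ε / R ^ 2) := by
          refine mul_le_mul (pow_le_pow_left₀ hx0.le hx2 2)
            (h1.le.trans (min_le_right _ _)) (abs_nonneg _) (by positivity)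
      _ = ε := by field_simp

section Flat

variable {G : Type} [Fintype G] [DecidableEq G]

omit [DecidableEq G] in
theorem entLe_mulVec {M : Matrix G G ℂ} {K c : ℝ} (hK : 0 ≤ K) (hc : 0 ≤ c) (hM : EntLe M K)
    {v : G → ℂ} (hv : ∑ y, ‖v y‖ ^ 2 ≤ c ^ 2 * Fintype.card G) (y : G) :
    ‖(M *ᵥ v) y‖ ≤ c * K := by
  have hN : (0 : ℝ) < Fintype.card G := by
    have : 0 < Fintype.card G := Fintype.card_pos_iff.2 ⟨y⟩
    exact_mod_cast this
  have h1 : ‖(M *ᵥ v) y‖ ≤ ∑ y', K / (Fintype.card G : ℝ) * ‖v y'‖ := by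
    refine le_trans (norm_sum_le _ _) (Finset.sum_le_sum (fun y' _ => ?_))
    rw [norm_mul]
    exact mul_le_mul_of_nonneg_right (hM y y') (norm_nonneg _)
  have h2 : (∑ y', ‖v y'‖) ^ 2 ≤ (Fintype.card G : ℝ) * ∑ y', ‖v y'‖ ^ 2 := by
    have := sq_sum_le_card_mul_sum_sq (s := (Finset.univ : Finset G)) (f := fun y' => ‖v y'‖)
    simpa using this
  have h3 : (∑ y', ‖v y'‖) ^ 2 ≤ (c * Fintype.card G) ^ 2 := by
    calc (∑ y', ‖v y'‖) ^ 2 ≤ (Fintype.card G : ℝ) * (c ^ 2 * Fintype.card G) :=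
          h2.trans (mul_le_mul_of_nonneg_left hv hN.le)
      _ = (c * Fintype.card G) ^ 2 := by ring
  have h4 : ∑ y', ‖v y'‖ ≤ c * Fintype.card G :=
    (abs_le_of_sq_le_sq' h3 (by positivity)).2
  rw [← Finset.mul_sum] at h1
  calc ‖(M *ᵥ v) y‖ ≤ K / (Fintype.card G : ℝ) * ∑ y', ‖v y'‖ := h1
    _ ≤ K / (Fintype.card G : ℝ) * (c * Fintype.card G) :=
        mul_le_mul_of_nonneg_left h4 (by positivity)
    _ = c * K := by field_simp

omit [DecidableEq G] in
theorem flat_aux {M P : Matrix G G ℂ} {D : ℕ} {K : ℝ} (hK : 0 ≤ K) (hM : EntLe M K)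
    (hG : Gap M P D) (n : ℕ) : ∀ (c : ℝ) (v : G → ℂ), 0 ≤ c → P *ᵥ v = v →
    ∑ y, ‖v y‖ ^ 2 ≤ c ^ 2 * Fintype.card G → ∀ y,
      ‖v y‖ ≤ c * (4 / 3 * K + (1 / 4) ^ n * Real.sqrt (Fintype.card G)) := by
  induction n with
  | zero =>
    intro c v hc _ hv y
    have h1 : ‖v y‖ ^ 2 ≤ c ^ 2 * Fintype.card G :=
      (Finset.single_le_sum (f := fun y => ‖v y‖ ^ 2) (fun y _ => by positivity)
        (Finset.mem_univ y)).trans hv
    have h2 : ‖v y‖ ≤ c * Real.sqrt (Fintype.card G) := by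
      refine (abs_le_of_sq_le_sq' ?_ (by positivity)).2
      rw [mul_pow, Real.sq_sqrt (by positivity)]
      exact h1
    have h3 : 0 ≤ c * (4 / 3 * K) := by positivity
    rw [pow_zero, one_mul, mul_add]
    linarith
  | succ n ih =>
    intro c v hc hPv hv y
    have h1 := entLe_mulVec hK hc hM hv y
    set w : G → ℂ := (M - P) *ᵥ v with hw
    have hw1 : P *ᵥ w = w := by
      have e1 : P *ᵥ (M *ᵥ v) = M *ᵥ v := by
        rw [mulVec_mulVec, hG.comm, ← mulVec_mulVec, hPv]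
      rw [hw, Matrix.sub_mulVec, Matrix.mulVec_sub, e1, hPv, hPv]
    have hw2 : ∑ y, ‖w y‖ ^ 2 ≤ (c / 4) ^ 2 * Fintype.card G := by
      have h2 := hG.close.2 v
      calc ∑ y, ‖w y‖ ^ 2 ≤ (1 / 4) ^ 2 * ∑ y, ‖v y‖ ^ 2 := h2
        _ ≤ (1 / 4) ^ 2 * (c ^ 2 * Fintype.card G) := mul_le_mul_of_nonneg_left hv (by positivity)
        _ = (c / 4) ^ 2 * Fintype.card G := by ring
    have h3 := ih (c / 4) w (by positivity) hw1 hw2 y
    have h4 : v y = (M *ᵥ v) y - w y := by
      rw [hw, Matrix.sub_mulVec, hPv]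
      simp
    rw [h4]
    have h5 := norm_sub_le ((M *ᵥ v) y) (w y)
    rw [pow_succ]
    nlinarith [h5, h3, h1]

/-- FLAT -/
theorem flat : T_FLAT := by
  intro G _ _ _ _ M P D K hK hM hG e he hn y
  have hN : (0 : ℝ) < Fintype.card G := by
    have : 0 < Fintype.card G := Fintype.card_pos_iff.2 ⟨y⟩
    exact_mod_cast this
  have h1 : ∑ y, ‖e y‖ ^ 2 ≤ (1 : ℝ) ^ 2 * Fintype.card G := by
    rw [Fintype.expect_eq_sum_div_card, div_le_one hN] at hn
    simpa using hn
  have h2 := fun n => flat_aux hK hM hG n 1 e zero_le_one he h1 y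
  have h3 : Filter.Tendsto (fun n : ℕ => 1 * (4 / 3 * K + (1 / 4 : ℝ) ^ n *
      Real.sqrt (Fintype.card G))) Filter.atTop (nhds (1 * (4 / 3 * K + 0 *
      Real.sqrt (Fintype.card G)))) := by
    refine (Filter.Tendsto.const_mul _ (Filter.Tendsto.const_add _
      (Filter.Tendsto.mul_const _ ?_)))
    exact tendsto_pow_atTop_nhds_zero_of_lt_one (by norm_num) (by norm_num)
  have h4 := ge_of_tendsto' h3 h2
  linarith

end Flat

end Pool.Agent.H54.SQ

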