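import Pool.Agent.H54.SQ.Cut

/-!
# Squares: module INI1
-/

namespace Pool.Agent.H54.SQ

open Finset Matrix Polynomial Pool.Agent.H45.SQ
open scoped BigOperators ComplexConjugate ComplexOrder

/-- a polynomial without constant term satisfies `q(x)^2 ≤ L x` on `[0,1]` -/
theorem poly_sq_le (q : ℝ[X]) (h : q.coeff 0 = 0) :
    ∃ L : ℝ, 0 ≤ L ∧ ∀ x : ℝ, 0 ≤ x → x ≤ 1 → q.eval x ^ 2 ≤ L * x := by
  obtain ⟨p, hp⟩ := X_dvd_iff.2 h
  obtain ⟨C, hC⟩ := isCompact_Icc.exists_bound_of_continuousOn
    (p.continuous.continuousOn (s := Set.Icc (0 : ℝ) 1))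
  refine ⟨C ^ 2, sq_nonneg C, fun x hx0 hx1 => ?_⟩
  have h1 : |p.eval x| ≤ C := by
    have := hC x ⟨hx0, hx1⟩
    simpa using this
  have h2 : p.eval x ^ 2 ≤ C ^ 2 := by
    rw [← sq_abs]
    exact pow_le_pow_left₀ (abs_nonneg _) h1 2
  rw [hp, eval_mul, eval_X, mul_pow]
  have h3 : x ^ 2 ≤ x := by nlinarith
  calc x ^ 2 * p.eval x ^ 2 ≤ x * C ^ 2 :=
        mul_le_mul h3 h2 (sq_nonneg _) hx0
    _ = C ^ 2 * x := by ring

section

variable {G : Type} [Fintype G] [DecidableEq G]

omit [DecidableEq G] in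
/-- entries of a positive semidefinite matrix -/
theorem psd_entry {A : Matrix G G ℂ} (hA : A.PosSemidef) (y y' : G) :
    ‖A y y'‖ ^ 2 ≤ (A y y).re * (A y' y').re := by
  have h1 := (hA.submatrix ![y, y']).det_nonneg
  rw [det_fin_two] at h1
  simp only [submatrix_apply, Matrix.cons_val_zero, Matrix.cons_val_one] at h1
  have h2 : A y y' * A y' y = ((‖A y y'‖ ^ 2 : ℝ) : ℂ) := by
    rw [← hA.isHermitian.apply y' y, Complex.ofReal_pow, ← Complex.mul_conj']
    rfl
  have h3 : (A y y).im = 0 := by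
    have := hA.isHermitian.apply y y
    exact Complex.conj_eq_iff_im.1 this
  have h4 := (Complex.le_def.1 h1).1
  rw [h2, Complex.sub_re, Complex.mul_re, h3, zero_mul, sub_zero, Complex.ofReal_re,
    Complex.zero_re] at h4
  linarith

end

/-- INI1 -/
theorem ini1 (hC : T_CUTP) : T_INI1 := by
  intro ε hε hε1
  set D₀ : ℕ := ⌊2 / ε⌋₊ with hD₀
  set J : ℕ := D₀ + 1 with hJ
  set h : ℝ := ε / 2 / J with hh
  have hJ0 : (0 : ℝ) < J := by rw [hJ]; positivity
  have hh0 : 0 < h := by positivity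
  have hJh : J * h = ε / 2 := by rw [hh]; field_simp
  have hq : ∀ j : Fin J, ∃ q : ℝ[X],
      CutPoly 1 (ε / 2 + (j : ℕ) * h) (ε / 2 + ((j : ℕ) + 1) * h) (1 / 4) q := by
    intro j
    have h1 : (((j : ℕ) : ℝ) + 1) ≤ J := by exact_mod_cast j.2
    have h2 : (((j : ℕ) : ℝ) + 1) * h ≤ J * h := mul_le_mul_of_nonneg_right h1 hh0.le
    exact hC 1 _ _ (1 / 4) (by positivity) (by nlinarith) (by linarith) (by norm_num)
  choose q hq using hq
  choose L hL0 hL using fun j => poly_sq_le (q j) (hq j).1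
  refine ⟨J, q, ∑ j, L j, fun j => ⟨(hq j).1, (hq j).2.1⟩, ?_⟩
  intro G _ _ _ _ ρ hρ htr hent
  obtain ⟨U, d, hU, hρd⟩ := exists_spec hρ.isHermitian
  subst hρd
  have hd0 : ∀ i, 0 ≤ d i := by
    refine fc_nonneg_of hU (fun g => ?_)
    have h1 := hρ.dotProduct_mulVec_nonneg g
    have h2 := (Complex.le_def.1 h1).1
    exact h2
  have hsum : ∑ i, d i ≤ 1 := by
    rw [fc_trace hU, Complex.ofReal_re] at htr
    exact htr
  have hd1 : ∀ i, d i ≤ 1 := fun i =>
    (Finset.single_le_sum (fun j _ => hd0 j) (Finset.mem_univ i)).trans hsum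
  have hcard' : ∀ b : ℝ, ε / 2 ≤ b →
      ((Finset.univ.filter (fun i => b ≤ d i)).card : ℝ) ≤ 2 / ε := by
    intro b hb
    rw [le_div_iff₀ hε]
    have h1 : ((Finset.univ.filter (fun i => b ≤ d i)).card : ℝ) * b ≤ 1 := by
      rw [← nsmul_eq_mul]
      refine le_trans (Finset.card_nsmul_le_sum _ _ _ (fun i hi => (Finset.mem_filter.1 hi).2)) ?_
      exact (Finset.sum_le_sum_of_subset_of_nonneg (Finset.filter_subset _ _)
        (fun i _ _ => hd0 i)).trans hsum
    have h2 : (0 : ℝ) ≤ ((Finset.univ.filter (fun i => b ≤ d i)).card : ℝ) := by positivity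
    nlinarith
  refine ⟨fun j g => ?_, ?_⟩
  · rw [fc_aeval hU]
    have h1 : ∑ y, ‖(fc U (fun i => (q j).eval (d i))).mulVec g y‖ ^ 2 =
        ∑ i, (q j).eval (d i) ^ 2 * ‖(Uᴴ *ᵥ g) i‖ ^ 2 := fc_nsq hU _ g
    rw [h1, fc_qf, Finset.mul_sum]
    refine Finset.sum_le_sum (fun i _ => ?_)
    rw [← mul_assoc]
    refine mul_le_mul_of_nonneg_right ?_ (by positivity)
    refine (hL j (d i) (hd0 i) (hd1 i)).trans (mul_le_mul_of_nonneg_right ?_ (hd0 i))
    exact Finset.single_le_sum (fun j _ => hL0 j) (Finset.mem_univ j)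
  · obtain ⟨j, hjS, hfree⟩ := free_cell d (ε / 2) h hh0 D₀
      (Nat.le_floor (hcard' _ le_rfl)) (Finset.range J) (by rw [Finset.card_range, hJ]; omega)
    have hjJ : j < J := Finset.mem_range.1 hjS
    have hj1 : ((j : ℝ) + 1) ≤ J := by exact_mod_cast hjJ
    set b : ℝ := ε / 2 + ((j : ℝ) + 1) * h with hb
    have hbε : b ≤ ε := by
      have h2 : ((j : ℝ) + 1) * h ≤ J * h := mul_le_mul_of_nonneg_right hj1 hh0.le
      linarith
    have hb2 : ε / 2 ≤ b := by
      have : 0 ≤ ((j : ℝ) + 1) * h := by positivity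
      linarith
    set P := fc U (fun i => ind b (d i)) with hP
    have hρP : fc U d * P = fc U (fun i => d i * ind b (d i)) := fc_mul hU _ _
    have hlt : ∀ i, ¬ b ≤ d i → d i ≤ ε / 2 + j * h := by
      intro i hi
      rcases hfree i with h1 | h1
      · exact h1.le
      · exact absurd h1 hi
    have hdiff : (fc U d - fc U d * P).PosSemidef := by
      rw [hρP, fc_sub]
      refine fc_posSemidef (fun i => ?_)
      have h1 := hd0 i
      rcases ind_01 b (d i) with h2 | h2 <;> rw [h2] <;> simp [h1]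
    have hρPpos : (fc U d * P).PosSemidef := by
      rw [hρP]
      refine fc_posSemidef (fun i => ?_)
      have h1 := hd0 i
      rcases ind_01 b (d i) with h2 | h2 <;> rw [h2] <;> simp [h1]
    refine ⟨⟨j, hjJ⟩, (Finset.univ.filter (fun i => b ≤ d i)).card, P, hcard' b hb2,
      ⟨fc_proj hU (fun i => ind_01 b (d i)), tr_ind hU b d, ?_, ?_⟩, ?_, ?_, hρPpos, ?_, ?_⟩
    · rw [fc_aeval hU, hP, fc_mul hU, fc_mul hU]
      congr 1
      funext i
      ring
    · rw [fc_aeval hU, hP, fc_sub]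
      refine fc_opLe hU (by norm_num) (fun i => ?_)
      have hcut := hq ⟨j, hjJ⟩
      by_cases hi : b ≤ d i
      · unfold ind
        rw [if_pos hi]
        exact hcut.2.2.2 (d i) hi (hd1 i)
      · unfold ind
        rw [if_neg hi, sub_zero]
        have h3 := hcut.2.2.1 (d i) (by linarith [hd0 i]) (hlt i hi)
        have h4 : d i ^ 2 ≤ 1 := by nlinarith [hd0 i, hd1 i]
        linarith
    · rw [hP, fc_mul hU, fc_mul hU]
      congr 1
      funext i
      ring
    · rw [hρP, hP, fc_sub]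
      refine fc_posSemidef (fun i => ?_)
      have h1 := hd1 i
      rcases ind_01 b (d i) with h2 | h2 <;> rw [h2] <;> simp [h1]
    · rw [hρP, fc_sub, fc_hsq hU]
      calc ∑ i, (d i - d i * ind b (d i)) ^ 2 ≤ ∑ i, ε * d i := by
            refine Finset.sum_le_sum (fun i _ => ?_)
            by_cases hi : b ≤ d i
            · unfold ind
              rw [if_pos hi]
              have := hd0 i
              have h5 : 0 ≤ ε * d i := by positivity
              simpa using h5
            · unfold ind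
              rw [if_neg hi]
              have h6 := not_le.1 hi
              have h7 := hd0 i
              have h8 : d i ≤ ε := by linarith
              nlinarith
        _ ≤ ε := by
            rw [← Finset.mul_sum]
            nlinarith
    · intro y y'
      have h1 := psd_entry hρPpos y y'
      have hN : (0 : ℝ) < Fintype.card G := by
        have : 0 < Fintype.card G := Fintype.card_pos_iff.2 ⟨y⟩
        exact_mod_cast this
      have hdiag : ∀ z, ((fc U d * P) z z).re ≤ 1 / (Fintype.card G : ℝ) ∧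
          0 ≤ ((fc U d * P) z z).re := by
        intro z
        have h2 := hdiff.diag_nonneg (i := z)
        have h3 := (Complex.le_def.1 h2).1
        have h4 : ((fc U d - fc U d * P) z z).re = (fc U d z z).re - ((fc U d * P) z z).re := by
          rw [Matrix.sub_apply, Complex.sub_re]
        rw [h4, Complex.zero_re] at h3
        have h5 : (fc U d z z).re ≤ 1 / (Fintype.card G : ℝ) :=
          (Complex.re_le_norm _).trans (hent z z)
        have h6 := (Complex.le_def.1 (hρPpos.diag_nonneg (i := z))).1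
        rw [Complex.zero_re] at h6
        exact ⟨by linarith, h6⟩
      have h7 : ‖(fc U d * P) y y'‖ ^ 2 ≤ (1 / (Fintype.card G : ℝ)) ^ 2 := by
        refine h1.trans ?_
        rw [sq]
        exact mul_le_mul (hdiag y).1 (hdiag y').1 (hdiag y').2 (by positivity)
      exact (abs_le_of_sq_le_sq' h7 (by positivity)).2

end Pool.Agent.H54.SQ

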