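import Pool.Agent.H45.SQ.Targets2

/-!
# Squares: functional calculus of Hermitian matrices

`fc U d = U diag(d) U*` for a unitary `U` and `d : G → ℝ`.
-/

namespace Pool.Agent.H54.SQ

open Finset Matrix Polynomial Pool.Agent.H45.SQ
open scoped BigOperators ComplexConjugate ComplexOrder

section

variable {G : Type} [Fintype G] [DecidableEq G]

/-- `U` is unitary -/
structure SD (U : Matrix G G ℂ) : Prop where
  l : Uᴴ * U = 1
  r : U * Uᴴ = 1

/-- `U diag(d) U*` -/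
noncomputable def fc (U : Matrix G G ℂ) (d : G → ℝ) : Matrix G G ℂ :=
  U * diagonal (fun i => (d i : ℂ)) * Uᴴ

theorem exists_spec {M : Matrix G G ℂ} (hM : M.IsHermitian) :
    ∃ (U : Matrix G G ℂ) (d : G → ℝ), SD U ∧ M = fc U d := by
  refine ⟨(hM.eigenvectorUnitary : Matrix G G ℂ), hM.eigenvalues, ⟨?_, ?_⟩, ?_⟩
  · exact Unitary.coe_star_mul_self hM.eigenvectorUnitary
  · exact Unitary.coe_mul_star_self hM.eigenvectorUnitary
  · have h := hM.spectral_theorem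
    rw [Unitary.conjStarAlgAut_apply] at h
    exact h

variable {U : Matrix G G ℂ} (hU : SD U)

include hU

theorem fc_mul (d d' : G → ℝ) : fc U d * fc U d' = fc U (fun i => d i * d' i) := by
  unfold fc
  have h : U * diagonal (fun i => (d i : ℂ)) * Uᴴ * (U * diagonal (fun i => (d' i : ℂ)) * Uᴴ) =
      U * diagonal (fun i => (d i : ℂ)) * (Uᴴ * U) * diagonal (fun i => (d' i : ℂ)) * Uᴴ := by
    simp only [Matrix.mul_assoc]
  rw [h, hU.l, Matrix.mul_one, Matrix.mul_assoc U, diagonal_mul_diagonal]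
  simp

theorem fc_one : fc U (fun _ => 1) = 1 := by
  unfold fc
  simp [hU.r]

omit hU in
theorem fc_add (d d' : G → ℝ) : fc U d + fc U d' = fc U (fun i => d i + d' i) := by
  unfold fc
  rw [← Matrix.add_mul, ← Matrix.mul_add, diagonal_add]
  simp

omit hU in
theorem fc_sub (d d' : G → ℝ) : fc U d - fc U d' = fc U (fun i => d i - d' i) := by
  unfold fc
  rw [← Matrix.sub_mul, ← Matrix.mul_sub, diagonal_sub]
  simp

omit hU in
theorem fc_smul (c : ℝ) (d : G → ℝ) : (c : ℝ) • fc U d = fc U (fun i => c * d i) := by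
  unfold fc
  rw [← Matrix.smul_mul, ← Matrix.mul_smul, ← diagonal_smul]
  congr 3
  funext i
  simp

omit hU in
theorem fc_zero : fc U (fun _ => 0) = 0 := by
  unfold fc
  simp

omit hU in
theorem fc_herm (d : G → ℝ) : (fc U d).IsHermitian := by
  unfold fc Matrix.IsHermitian
  rw [conjTranspose_mul, conjTranspose_mul, conjTranspose_conjTranspose, diagonal_conjTranspose,
    Matrix.mul_assoc]
  congr 3
  funext i
  simp

theorem fc_trace (d : G → ℝ) : (fc U d).trace = ((∑ i, d i : ℝ) : ℂ) := by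
  unfold fc
  rw [Matrix.trace_mul_comm, ← Matrix.mul_assoc, hU.l, Matrix.one_mul, trace_diagonal]
  simp

theorem fc_pow (d : G → ℝ) (n : ℕ) : fc U d ^ n = fc U (fun i => d i ^ n) := by
  induction n with
  | zero => simp [fc_one hU]
  | succ n ih => rw [pow_succ, ih, fc_mul hU]; simp only [pow_succ]

theorem fc_aeval (d : G → ℝ) (q : ℝ[X]) : aeval (fc U d) q = fc U (fun i => q.eval (d i)) := by
  induction q using Polynomial.induction_on' with
  | add p q hp hq =>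
    rw [map_add, hp, hq, fc_add]
    simp only [eval_add]
  | monomial n a =>
    rw [aeval_monomial, fc_pow hU, ← Algebra.smul_def, fc_smul]
    simp only [eval_monomial]

theorem nsq (z : G → ℂ) : ∑ y, ‖(U *ᵥ z) y‖ ^ 2 = ∑ y, ‖z y‖ ^ 2 := by
  have h : ∀ w : G → ℂ, ((∑ y, ‖w y‖ ^ 2 : ℝ) : ℂ) = star w ⬝ᵥ w := by
    intro w
    simp only [dotProduct, Complex.ofReal_sum, Complex.ofReal_pow]
    refine Finset.sum_congr rfl (fun y _ => ?_)
    rw [← Complex.conj_mul']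
    rfl
  have h1 : star (U *ᵥ z) ⬝ᵥ (U *ᵥ z) = star z ⬝ᵥ z := by
    rw [star_mulVec, dotProduct_mulVec, vecMul_vecMul, hU.l, vecMul_one]
  have h2 : ((∑ y, ‖(U *ᵥ z) y‖ ^ 2 : ℝ) : ℂ) = ((∑ y, ‖z y‖ ^ 2 : ℝ) : ℂ) := by
    rw [h, h, h1]
  exact_mod_cast h2

theorem SD.symm : SD Uᴴ := ⟨by rw [conjTranspose_conjTranspose]; exact hU.r,
  by rw [conjTranspose_conjTranspose]; exact hU.l⟩

omit hU in
theorem fc_mulVec (d : G → ℝ) (g : G → ℂ) :
    fc U d *ᵥ g = U *ᵥ (fun i => (d i : ℂ) * (Uᴴ *ᵥ g) i) := by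
  unfold fc
  rw [Matrix.mul_assoc, ← mulVec_mulVec, ← mulVec_mulVec]
  congr 1
  funext i
  rw [mulVec_diagonal]

/-- norm of `fc U d g` -/
theorem fc_nsq (d : G → ℝ) (g : G → ℂ) :
    ∑ y, ‖(fc U d *ᵥ g) y‖ ^ 2 = ∑ i, d i ^ 2 * ‖(Uᴴ *ᵥ g) i‖ ^ 2 := by
  rw [fc_mulVec, nsq hU]
  refine Finset.sum_congr rfl (fun i _ => ?_)
  rw [norm_mul, mul_pow, Complex.norm_real, Real.norm_eq_abs, sq_abs]

/-- Plancherel -/
theorem planch (g : G → ℂ) : ∑ i, ‖(Uᴴ *ᵥ g) i‖ ^ 2 = ∑ y, ‖g y‖ ^ 2 :=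
  nsq hU.symm g

omit hU in
theorem fc_qf (d : G → ℝ) (g : G → ℂ) :
    qf (fc U d) g = ∑ i, d i * ‖(Uᴴ *ᵥ g) i‖ ^ 2 := by
  unfold qf
  have h : ∑ y, conj (g y) * (fc U d *ᵥ g) y = star g ⬝ᵥ (fc U d *ᵥ g) := rfl
  rw [h, fc_mulVec, dotProduct_mulVec]
  have h2 : star g ᵥ* U = star (Uᴴ *ᵥ g) := by
    rw [star_mulVec, conjTranspose_conjTranspose]
  rw [h2]
  have h3 : star (Uᴴ *ᵥ g) ⬝ᵥ (fun i => (d i : ℂ) * (Uᴴ *ᵥ g) i) =
      ((∑ i, d i * ‖(Uᴴ *ᵥ g) i‖ ^ 2 : ℝ) : ℂ) := by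
    simp only [dotProduct, Complex.ofReal_sum, Complex.ofReal_mul, Complex.ofReal_pow]
    refine Finset.sum_congr rfl (fun i _ => ?_)
    rw [← Complex.conj_mul']
    show conj ((Uᴴ *ᵥ g) i) * ((d i : ℂ) * (Uᴴ *ᵥ g) i) = _
    ring
  rw [h3, Complex.ofReal_re]

theorem fc_opLe {d : G → ℝ} {c : ℝ} (hc : 0 ≤ c) (h : ∀ i, |d i| ≤ c) : OpLe (fc U d) c := by
  refine ⟨hc, fun g => ?_⟩
  have h1 := fc_nsq hU d g
  have h2 : ∑ y, ‖(fc U d).mulVec g y‖ ^ 2 = ∑ i, d i ^ 2 * ‖(Uᴴ *ᵥ g) i‖ ^ 2 := h1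
  rw [h2, ← planch hU g, Finset.mul_sum]
  refine Finset.sum_le_sum (fun i _ => mul_le_mul_of_nonneg_right ?_ (by positivity))
  rw [← sq_abs]
  exact pow_le_pow_left₀ (abs_nonneg _) (h i) 2

/-- the `i`-th eigenvector -/
theorem ev_single (i : G) : Uᴴ *ᵥ (U *ᵥ (Pi.single i 1 : G → ℂ)) = Pi.single i 1 := by
  rw [mulVec_mulVec, hU.l, one_mulVec]

theorem fc_qf_single (d : G → ℝ) (i : G) :
    qf (fc U d) (U *ᵥ (Pi.single i 1 : G → ℂ)) = d i := by
  rw [fc_qf, ev_single hU, Finset.sum_eq_single i]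
  · simp
  · intro j _ hj
    rw [Pi.single_eq_of_ne hj]; simp
  · intro h; exact absurd (Finset.mem_univ i) h

theorem fc_nonneg_of {d : G → ℝ} (h : ∀ g, 0 ≤ qf (fc U d) g) (i : G) : 0 ≤ d i := by
  rw [← fc_qf_single hU d i]; exact h _

theorem fc_le_of_opLe {d : G → ℝ} {c : ℝ} (h : OpLe (fc U d) c) (i : G) : |d i| ≤ c := by
  have h1 := h.2 (U *ᵥ (Pi.single i 1 : G → ℂ))
  have h2 : ∑ y, ‖(fc U d).mulVec (U *ᵥ (Pi.single i 1 : G → ℂ)) y‖ ^ 2 = d i ^ 2 := by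
    refine (fc_nsq hU d (U *ᵥ (Pi.single i 1 : G → ℂ))).trans ?_
    rw [ev_single hU, Finset.sum_eq_single i]
    · simp
    · intro j _ hj
      rw [Pi.single_eq_of_ne hj]; simp
    · intro h; exact absurd (Finset.mem_univ i) h
  have h3 : ∑ y, ‖(U *ᵥ (Pi.single i 1 : G → ℂ)) y‖ ^ 2 = 1 := by
    rw [nsq hU, Finset.sum_eq_single i]
    · simp
    · intro j _ hj
      rw [Pi.single_eq_of_ne hj]; simp
    · intro h; exact absurd (Finset.mem_univ i) h
  rw [h2, h3, mul_one] at h1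
  exact abs_le_of_sq_le_sq h1 h.1

theorem fc_proj {d : G → ℝ} (h : ∀ i, d i = 0 ∨ d i = 1) : Proj (fc U d) := by
  refine ⟨fc_herm d, ?_⟩
  rw [fc_mul hU]
  congr 1
  funext i
  rcases h i with h | h <;> rw [h] <;> norm_num

omit hU in
theorem fc_posSemidef {d : G → ℝ} (h : ∀ i, 0 ≤ d i) : (fc U d).PosSemidef := by
  unfold fc
  refine Matrix.PosSemidef.mul_mul_conjTranspose_same ?_ U
  refine Matrix.PosSemidef.diagonal ?_
  intro i
  show (0 : ℂ) ≤ ((d i : ℝ) : ℂ)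
  exact_mod_cast h i

omit hU in
theorem hsq_eq (M : Matrix G G ℂ) : ((hsq M : ℝ) : ℂ) = (Mᴴ * M).trace := by
  unfold hsq
  rw [Finset.sum_comm]
  simp only [Matrix.trace, Matrix.diag, Matrix.mul_apply, Complex.ofReal_sum, Complex.ofReal_pow,
    conjTranspose_apply]
  refine Finset.sum_congr rfl (fun y _ => Finset.sum_congr rfl (fun y' _ => ?_))
  rw [← Complex.conj_mul']
  rfl

theorem fc_hsq (d : G → ℝ) : hsq (fc U d) = ∑ i, d i ^ 2 := by
  have h1 := hsq_eq (fc U d)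
  rw [(fc_herm (U := U) d).eq, fc_mul hU, fc_trace hU] at h1
  have h2 : hsq (fc U d) = ∑ i, d i * d i := by exact_mod_cast h1
  rw [h2]
  exact Finset.sum_congr rfl (fun i _ => by ring)

end

section

variable {G : Type} [Fintype G] [DecidableEq G]

omit [DecidableEq G] in
/-- the trace of a projection is its squared Hilbert-Schmidt norm -/
theorem proj_trace {P : Matrix G G ℂ} (hP : Proj P) : P.trace = ((hsq P : ℝ) : ℂ) := by
  classical
  rw [hsq_eq, hP.1.eq, hP.2]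

omit [DecidableEq G] in
theorem hsq_nonneg (M : Matrix G G ℂ) : 0 ≤ hsq M :=
  Finset.sum_nonneg (fun y _ => Finset.sum_nonneg (fun y' _ => by positivity))

omit [DecidableEq G] in
theorem hsq_eq_zero {M : Matrix G G ℂ} (h : hsq M = 0) : M = 0 := by
  unfold hsq at h
  rw [Finset.sum_eq_zero_iff_of_nonneg (fun y _ => Finset.sum_nonneg
    (fun y' _ => by positivity))] at h
  ext y y'
  have h1 := h y (Finset.mem_univ _)
  rw [Finset.sum_eq_zero_iff_of_nonneg (fun y' _ => by positivity)] at h1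
  have h2 := h1 y' (Finset.mem_univ _)
  simpa using h2

omit [DecidableEq G] in
/-- difference of nested projections -/
theorem proj_sub {P Q : Matrix G G ℂ} (hP : Proj P) (hQ : Proj Q) (h : P * Q = Q) :
    Proj (P - Q) := by
  have h' : Q * P = Q := by
    have := congrArg Matrix.conjTranspose h
    rw [conjTranspose_mul, hP.1.eq, hQ.1.eq] at this
    exact this
  refine ⟨hP.1.sub hQ.1, ?_⟩
  rw [Matrix.sub_mul, Matrix.mul_sub, Matrix.mul_sub, hP.2, hQ.2, h, h']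
  simp

omit [DecidableEq G] in
/-- a subprojection has smaller trace, with equality only for equal projections -/
theorem proj_le {P Q : Matrix G G ℂ} (hP : Proj P) (hQ : Proj Q) (h : P * Q = Q) :
    Q.trace.re ≤ P.trace.re ∧ (Q.trace.re = P.trace.re → P = Q) := by
  have h1 := proj_trace (proj_sub hP hQ h)
  have h2 : (P - Q).trace.re = hsq (P - Q) := by rw [h1, Complex.ofReal_re]
  rw [Matrix.trace_sub, Complex.sub_re] at h2
  have h3 := hsq_nonneg (P - Q)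
  refine ⟨by linarith, fun h4 => ?_⟩
  have h5 : hsq (P - Q) = 0 := by linarith
  exact sub_eq_zero.1 (hsq_eq_zero h5)

end

end Pool.Agent.H54.SQ
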